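import Pool.Agent.Helper91.KZ.StL

/-!
# MP_1d885e_al: (BE1) the choice of the algebra `Γ`
-/

namespace Pool.Agent.Helper97.KZ

open Pool.Agent.Helper91.KZ Polynomial TensorProduct

universe u

noncomputable section

section coc

variable {E N : Type u} [Field E] [Field N] [Algebra E N]

lemma z2_pow {a : (N ≃ₐ[E] N) → (N ≃ₐ[E] N) → N} (h : Z2 a) (m : ℕ) :
    Z2 (fun g h => a g h ^ m) where
  a0 g k := pow_ne_zero m (h.a0 g k)
  co g k l := by rw [map_pow, ← mul_pow, h.co, mul_pow]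

lemma z2_inv {a : (N ≃ₐ[E] N) → (N ≃ₐ[E] N) → N} (h : Z2 a) :
    Z2 (fun g h => (a g h)⁻¹) where
  a0 g k := inv_ne_zero (h.a0 g k)
  co g k l := by rw [map_inv₀, ← mul_inv, h.co, mul_inv]

lemma coh_pow (hCOH : ST_COH.{u}) {a : (N ≃ₐ[E] N) → (N ≃ₐ[E] N) → N} (ha : ∀ g h, a g h ≠ 0)
    (h : Coh a (fun _ _ => 1)) (m : ℕ) : Coh (fun g h => a g h ^ m) (fun _ _ => 1) := by
  have h1 := (hCOH E N a (fun _ _ => 1) a a ha (fun _ _ => one_ne_zero) ha ha).2.2.2.2.1 m h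
  simpa using h1

lemma coh_inv (hCOH : ST_COH.{u}) {a : (N ≃ₐ[E] N) → (N ≃ₐ[E] N) → N} (ha : ∀ g h, a g h ≠ 0)
    (h : Coh a (fun _ _ => 1)) : Coh (fun g h => (a g h)⁻¹) (fun _ _ => 1) := by
  have h1 := (hCOH E N a (fun _ _ => 1) a a ha (fun _ _ => one_ne_zero) ha ha).2.2.2.2.2.1 h
  simpa using h1

end coc

/-- the exponent -/
lemma exp_choice (p a m q : ℕ) (hp : p.Prime) (hm : ¬ p ∣ m) (hm0 : 0 < m) (hq : ¬ p ∣ q)
    (hq0 : 0 < q) : ∃ t c : ℕ, m * t * q = 1 + c * p ^ a := by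
  rcases Nat.eq_zero_or_pos a with rfl | ha
  · refine ⟨1, m * q - 1, ?_⟩
    have : 0 < m * q := Nat.mul_pos hm0 hq0
    simp only [mul_one, pow_zero]
    omega
  · have hco : Nat.Coprime (m * q) (p ^ a) := by
      apply Nat.Coprime.pow_right
      rw [Nat.coprime_comm, hp.coprime_iff_not_dvd, hp.dvd_mul]
      tauto
    have h1 : 1 < p ^ a := Nat.one_lt_pow ha.ne' hp.one_lt
    obtain ⟨t, -, ht⟩ := Nat.exists_mul_mod_eq_one_of_coprime hco h1
    refine ⟨t, m * q * t / p ^ a, ?_⟩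
    have h2 := Nat.div_add_mod (m * q * t) (p ^ a)
    rw [ht] at h2
    have h3 : m * t * q = m * q * t := by ring
    rw [h3]
    nlinarith [h2]

lemma nn_equiv {K A B : Type u} [Field K] [Ring A] [Algebra K A] [Ring B] [Algebra K B]
    (e : A ≃ₐ[K] B) (q : ℕ) (x : A) : NN K q (e x) = NN K q x := by
  unfold NN dg
  rw [minpoly.algEquiv_eq]

theorem st_BE1 (hTS : ST_TS.{u}) (hTWE : ST_TWE.{u}) (hTWB : ST_TWB.{u}) (hTWZ : ST_TWZ.{u})
    (hNRM : ST_NRM.{u}) (hNSC : ST_NSC.{u}) (hCRO : ST_CRO.{u}) (hKIL : ST_KIL.{u})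
    (hCOH : ST_COH.{u}) (hRSC : ST_RSC.{u}) (hTWP : ST_TWP.{u}) : ST_BE1.{u} := by
  classical
  intro F D N _ _ _ _ _ _ _ _ _ p hp hDA H
  obtain ⟨r, Δ, _, _, hCor, -⟩ := hTS F D N hDA
  have hKP := H Δ r hCor
  obtain ⟨TD⟩ := hTWE F N D Δ r hCor
  obtain ⟨-, -, hDAB, hKPB', hU0⟩ := hTWB F N D Δ r TD hCor
  have hKPB := hKPB' p 0 hKP
  have hunc : Uncountable N := (algebraMap F N).injective.uncountable
  obtain ⟨qa, hqa0, hqap, hqa⟩ := hTWZ F N D Δ TD r p hCor hp hKP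
  set S1 : Finset TD.B := Finset.univ.image (fun gh : (N ≃ₐ[F] N) × (N ≃ₐ[F] N) =>
    TD.U gh.1 gh.2) with hS1
  have hUS1 : ∀ g h, TD.U g h ∈ S1 := fun g h => by
    rw [hS1, Finset.mem_image]
    exact ⟨(g, h), Finset.mem_univ _, rfl⟩
  obtain ⟨qb, hqb0, hqbp, hqb⟩ := hNRM N TD.B p hp hDAB.alg hKPB S1 (fun x hx => by
    rw [hS1, Finset.mem_image] at hx
    obtain ⟨gh, -, rfl⟩ := hx
    exact hU0 _ _)
  set q0 := qa * qb with hq0
  have hq00 : 0 < q0 := Nat.mul_pos hqa0 hqb0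
  have hq0p : ¬ p ∣ q0 := by rw [hq0, hp.dvd_mul]; tauto
  set γ : (N ≃ₐ[F] N) → (N ≃ₐ[F] N) → N := fun g h => NN N q0 (TD.U g h) with hγ
  have hZγ : Z2 γ := hqa q0 (Dvd.intro _ rfl) hq00
  have hdg : ∀ g h, dg N (TD.U g h) ∣ q0 := fun g h =>
    (hqb q0 (Dvd.intro_left _ rfl) _ (hUS1 g h)).1
  have hn0 : Module.finrank F N ≠ 0 := Module.finrank_pos.ne'
  obtain ⟨a, m, hm, hnm⟩ := Nat.exists_eq_pow_mul_and_not_dvd hn0 p hp.ne_one
  have hm0 : 0 < m := Nat.pos_of_ne_zero (by rintro rfl; exact hm (dvd_zero p))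
  obtain ⟨t, c, htc⟩ := exp_choice p a m q0 hp hm hm0 hq0p hq00
  set al : (N ≃ₐ[F] N) → (N ≃ₐ[F] N) → N := fun g h => (γ g h ^ (m * t))⁻¹ with hal
  have hZal : Z2 al := z2_inv (z2_pow hZγ (m * t))
  obtain ⟨Γ, _, _, S, hCS, hTWS, hMI⟩ := hCRO F N al hZal
  obtain ⟨T', e, he⟩ := hTWP F N Γ D S TD (Module.finrank F N) al hCS hTWS
  refine ⟨Γ, inferInstance, inferInstance, S, Module.finrank F N, a, al, T', hCS, hTWS, hMI,
    ?_, ?_⟩
  · have h1 := hKIL F N γ hZγ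
    have h2 := coh_pow hCOH (fun g h => pow_ne_zero _ (hZγ.a0 g h)) h1 t
    have h3 := coh_inv hCOH (fun g h => pow_ne_zero _ (pow_ne_zero _ (hZγ.a0 g h))) h2
    have h4 : (fun g h => al g h ^ p ^ a) = fun g h => ((γ g h ^ Module.finrank F N) ^ t)⁻¹ := by
      funext g h
      rw [hal]
      simp only
      rw [inv_pow, ← pow_mul, ← pow_mul, hnm]
      congr 2
      ring
    rw [h4]
    exact h3
  · intro M _ _ _ _ hb
    obtain ⟨b, hb⟩ := hb
    have hMfin : FiniteDimensional M N := FiniteDimensional.right F M N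
    have hFMfin : FiniteDimensional F M := FiniteDimensional.left F M N
    have hMgal : IsGalois M N := IsGalois.tower_top_of_isGalois F M N
    set S2 : Finset TD.B := S1 ∪ Finset.univ.image (fun gh : (N ≃ₐ[F] N) × (N ≃ₐ[F] N) =>
      algebraMap N TD.B (al gh.1 gh.2)) with hS2
    have hUS2 : ∀ g h, TD.U g h ∈ S2 := fun g h => Finset.mem_union_left _ (hUS1 g h)
    have haS2 : ∀ g h, algebraMap N TD.B (al g h) ∈ S2 := fun g h => by
      exact Finset.mem_union_right _ (Finset.mem_image.2 ⟨(g, h), Finset.mem_univ _, rfl⟩)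
    obtain ⟨qc, hqc0, hqcp, hqc⟩ := hNRM N TD.B p hp hDAB.alg hKPB S2 (fun x hx => by
      rw [hS2, Finset.mem_union] at hx
      rcases hx with hx | hx
      · rw [hS1, Finset.mem_image] at hx
        obtain ⟨gh, -, rfl⟩ := hx
        exact hU0 _ _
      · rw [Finset.mem_image] at hx
        obtain ⟨gh, -, rfl⟩ := hx
        rw [Ne, map_eq_zero_iff _ (algebraMap N TD.B).injective]
        exact hZal.a0 _ _)
    refine ⟨q0 * qc, Nat.mul_pos hq00 hqc0, by rw [hp.dvd_mul]; tauto, ?_⟩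
    intro q hq hqpos
    obtain ⟨s, hs⟩ := (Dvd.intro _ rfl : q0 ∣ q0 * qc).trans hq
    have hqcq : qc ∣ q := (Dvd.intro_left _ rfl : qc ∣ q0 * qc).trans hq
    have hval : ∀ g h, NN N q (T'.U g h) = (γ g h ^ (c * p ^ a * s))⁻¹ := by
      intro g h
      rw [← nn_equiv e, he, (hqc q hqcq _ (haS2 g h)).2.2 _ (hUS2 g h),
        (hNSC N TD.B).1, hs, (hNSC N TD.B).2.2 q0 s _ (hdg g h)]
      change (γ g h ^ (m * t))⁻¹ ^ (q0 * s) * γ g h ^ s = _
      have hγ0 := hZγ.a0 g h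
      have h5 : m * t * (q0 * s) = c * p ^ a * s + s := by
        rw [← mul_assoc, htc]; ring
      rw [inv_pow, ← pow_mul, h5, pow_add, mul_inv, mul_assoc,
        inv_mul_cancel₀ (pow_ne_zero _ hγ0), mul_one]
    have hZM := (hRSC F M N γ γ).1 hZγ
    have h1 := hKIL M N _ hZM
    rw [hb] at h1
    have hdvd : p ^ b ∣ p ^ a * m := by
      rw [← hnm, ← Module.finrank_mul_finrank F M N, hb]
      exact Dvd.intro_left _ rfl
    have hba : p ^ b ∣ p ^ a :=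
      (Nat.Coprime.pow_left b ((hp.coprime_iff_not_dvd).2 hm)).dvd_of_dvd_mul_right hdvd
    obtain ⟨w, hw⟩ := hba
    have h2 := coh_pow hCOH (fun g h => pow_ne_zero _ (hZM.a0 g h)) h1 (w * c * s)
    have h3 := coh_inv hCOH (fun g h => pow_ne_zero _ (pow_ne_zero _ (hZM.a0 g h))) h2
    have h4 : (fun g h : N ≃ₐ[M] N => NN N q (T'.U (g.restrictScalars F)
        (h.restrictScalars F))) = fun g h : N ≃ₐ[M] N =>
        ((γ (g.restrictScalars F) (h.restrictScalars F) ^ p ^ b) ^ (w * c * s))⁻¹ := by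
      funext g h
      rw [hval, ← pow_mul, hw]
      congr 2
      ring
    rw [h4]
    exact h3

end

end Pool.Agent.Helper97.KZ
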