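import Pool.Agent.Helper91.KZ.StL

/-!
# MP_1d885e_al: (KZ0) the field generated by `y ^ p` and the cyclic algebra over it
-/

namespace Pool.Agent.Helper97.KZ

open Pool.Agent.Helper91.KZ Polynomial TensorProduct

universe u

noncomputable section

section basics

variable {E T Δ : Type u} [Field E] [Field T] [Algebra E T] [DivisionRing Δ] [Algebra E Δ]

/-- moving powers of `y` -/
lemma ypow (σ : T ≃ₐ[E] T) (i : T →ₐ[E] Δ) (y : Δ) (h : ∀ t, y * i t = i (σ t) * y) (k : ℕ)
    (t : T) : y ^ k * i t = i ((σ ^ k) t) * y ^ k := by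
  induction k generalizing t with
  | zero => simp
  | succ k ih =>
    rw [pow_succ, mul_assoc, h, ← mul_assoc, ih, mul_assoc, pow_succ σ]
    rfl

/-- the embedding of the field generated by `z` -/
def iZ (z : Δ) : AdjoinRoot (minpoly E z) →ₐ[E] Δ :=
  Ideal.Quotient.liftₐ (Ideal.span {minpoly E z}) (aeval z) (fun a ha => by
    obtain ⟨b, rfl⟩ := Ideal.mem_span_singleton.1 ha
    simp)

lemma iZ_mk (z : Δ) (f : E[X]) : iZ z (AdjoinRoot.mk (minpoly E z) f) = aeval z f := rfl

lemma iZ_root (z : Δ) : iZ z (AdjoinRoot.root (minpoly E z)) = z := by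
  have := iZ_mk (E := E) z X
  rwa [aeval_X] at this

lemma aeval_comm (z d : Δ) (hd : d * z = z * d) (f : E[X]) : d * aeval z f = aeval z f * d := by
  induction f using Polynomial.induction_on' with
  | add f g hf hg => rw [map_add, mul_add, add_mul, hf, hg]
  | monomial n a =>
    rw [aeval_monomial]
    have h1 : Commute d (z ^ n) := (show Commute d z from hd).pow_right n
    rw [← mul_assoc, ← Algebra.commutes a d, mul_assoc, h1.eq, mul_assoc]

lemma iZ_comm (z d : Δ) (hd : d * z = z * d) (w : AdjoinRoot (minpoly E z)) :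
    d * iZ z w = iZ z w * d := by
  obtain ⟨f, rfl⟩ := AdjoinRoot.mk_surjective w
  rw [iZ_mk]
  exact aeval_comm z d hd f

lemma fix_mem [FiniteDimensional E T] [IsGalois E T] (p : ℕ) (hp : p.Prime)
    (hT : Module.finrank E T = p) (σ : T ≃ₐ[E] T) (hσ : σ ≠ 1) (t : T) (ht : σ t = t) :
    ∃ e : E, algebraMap E T e = t := by
  have hcard : Nat.card (T ≃ₐ[E] T) = p := by
    rw [← hT]; exact IsGalois.card_aut_eq_finrank E T
  have : Fact p.Prime := ⟨hp⟩
  have htop := zpowers_eq_top_of_prime_card hcard hσ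
  have := (IsGalois.mem_range_algebraMap_iff_fixed (F := E) (E := T) t).2 (fun g => by
    have hg : g ∈ Subgroup.zpowers σ := htop ▸ Subgroup.mem_top g
    have hstab : Subgroup.zpowers σ ≤ MulAction.stabilizer (T ≃ₐ[E] T) t := by
      rw [Subgroup.zpowers_le]
      exact ht
    exact hstab hg)
  exact this

lemma no_emb [FiniteDimensional E T] [IsGalois E T] (p : ℕ) (hp : p.Prime)
    (hT : Module.finrank E T = p) (σ : T ≃ₐ[E] T) (hσ : σ ≠ 1) (i : T →ₐ[E] Δ) (y : Δ)
    (hy : y ≠ 0) (h : ∀ t, y * i t = i (σ t) * y) (j : T →ₐ[E] Δ)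
    (hj1 : ∀ t s, j t * i s = i s * j t) (hj2 : ∀ t, y * j t = j t * y) : False := by
  obtain ⟨t0, ht0⟩ : ∃ t, σ t ≠ t := by
    by_contra hc
    push Not at hc
    exact hσ (AlgEquiv.ext hc)
  set f := minpoly E t0 with hf
  have hspl := Normal.splits (inferInstance : Normal E T) t0
  let g : T[X] →+* Δ := eval₂RingHom' (i : T →+* Δ) (j t0) (fun a => (hj1 t0 a).symm)
  have hgX : g X = j t0 := eval₂_X _ _
  have hgC : ∀ r, g (C r) = i r := fun r => eval₂_C _ _
  have hg0 : g (f.map (algebraMap E T)) = 0 := by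
    have h1 : g (f.map (algebraMap E T)) = eval₂ (algebraMap E Δ) (j t0) f := by
      change eval₂ (i : T →+* Δ) (j t0) (f.map (algebraMap E T)) = _
      rw [eval₂_map]
      congr 1
      ext e
      simp
    rw [h1]
    change aeval (j t0) f = 0
    rw [aeval_algHom_apply, hf, minpoly.aeval, map_zero]
  have hmon : (f.map (algebraMap E T)).Monic :=
    (minpoly.monic (IsIntegral.of_finite E t0)).map _
  have hprod := Polynomial.Splits.eq_prod_roots_of_monic hspl hmon
  rw [hprod] at hg0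
  set m := (f.map (algebraMap E T)).roots with hm
  obtain ⟨l, hl⟩ : ∃ l : List T, (l : Multiset T) = m := ⟨m.toList, Multiset.coe_toList m⟩
  rw [← hl, Multiset.map_coe, Multiset.prod_coe, map_list_prod, List.map_map,
    List.prod_eq_zero_iff, List.mem_map] at hg0
  obtain ⟨r, -, hr⟩ := hg0
  have hr' : j t0 = i r := by
    have : g (X - C r) = 0 := hr
    rw [map_sub, hgX, hgC, sub_eq_zero] at this
    exact this
  have h2 : σ r = r := by
    have h3 : i (σ r) * y = i r * y := by
      rw [← h, ← hr', hj2]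
    exact i.injective (mul_right_cancel₀ hy h3)
  obtain ⟨e, he⟩ := fix_mem p hp hT σ hσ r h2
  have h4 : j t0 = j (algebraMap E T e) := by
    rw [hr', ← he]; simp
  have h5 := j.injective h4
  apply ht0
  rw [h5]; simp

end basics

section core

variable {E T Δ : Type u} [Field E] [Field T] [Algebra E T] [DivisionRing Δ] [Algebra E Δ]

/-- a factorisation through an injective homomorphism -/
def facj {C : Type u} [Ring C] (j : C →+* Δ) (hj : Function.Injective j) (i : T →+* Δ)
    (h : ∀ t, ∃ c, j c = i t) : T →+* C :=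
  ((RingEquiv.ofBijective j.rangeRestrict ⟨fun _ _ hab => hj (congrArg Subtype.val hab),
    j.rangeRestrict_surjective⟩).symm : j.range →+* C).comp
    (i.codRestrict j.range fun t => RingHom.mem_range.2 (h t))

lemma facj_spec {C : Type u} [Ring C] (j : C →+* Δ) (hj : Function.Injective j) (i : T →+* Δ)
    (h : ∀ t, ∃ c, j c = i t) (t : T) : j (facj j hj i h t) = i t := by
  have h1 := RingEquiv.apply_symm_apply (RingEquiv.ofBijective j.rangeRestrict
    ⟨fun a b hab => hj (congrArg Subtype.val hab), j.rangeRestrict_surjective⟩)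
    (i.codRestrict j.range (fun t => RingHom.mem_range.2 (h t)) t)
  exact congrArg Subtype.val h1

end core

theorem st_KZ0 (hCEN : ST_CEN.{u}) (hTWF : ST_TWF.{u}) (hCYG : ST_CYG.{u}) (hSUB : ST_SUB.{u})
    (hMMI : ST_MMI.{u}) (hDVS : ST_DVS.{u}) : ST_KZ0.{u} := by
  intro E T Δ _ _ _ _ _ _ _ _ p σ i y hp hT hσ hDA hy hyt
  have hcard : Nat.card (T ≃ₐ[E] T) = p := by
    rw [← hT]; exact IsGalois.card_aut_eq_finrank E T
  have hσp : σ ^ p = 1 := by rw [← hcard]; exact pow_card_eq_one'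
  set z : Δ := y ^ p with hz
  have hz0 : z ≠ 0 := pow_ne_zero p hy
  have hzt : ∀ t, i t * z = z * i t := fun t => by
    rw [hz, ypow σ i y hyt p t, hσp]; rfl
  have hzy : y * z = z * y := by rw [hz, ← pow_succ, ← pow_succ']
  have hint : IsIntegral E z := hDA.alg z
  have : Fact (Irreducible (minpoly E z)) := ⟨minpoly.irreducible hint⟩
  let Z := AdjoinRoot (minpoly E z)
  let : Field Z := AdjoinRoot.instField
  let : Algebra E Z := inferInstance
  have hfin : FiniteDimensional E Z := (minpoly.monic hint).finite_adjoinRoot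
  let ζ : Z := AdjoinRoot.root (minpoly E z)
  let iz : Z →ₐ[E] Δ := iZ z
  have hiz : iz ζ = z := iZ_root z
  obtain ⟨C, _, _, j, hj, hjZ, hjC, hCor⟩ := hCEN E Δ Z iz hDA
  have hc1 : ∀ t, ∃ c, j c = (i : T →+* Δ) t := fun t => by
    rw [← hjC]; intro m
    exact iZ_comm z (i t) (hzt t) m
  have hc2 : ∃ c, j c = y := by
    rw [← hjC]; intro m
    exact iZ_comm z y hzy m
  obtain ⟨cy, hcy⟩ := hc2
  have hemp : IsEmpty (T →ₐ[E] Z) := by
    refine ⟨fun φ => ?_⟩
    exact no_emb p hp hT σ hσ i y hy hyt (iz.comp φ)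
      (fun t s => (iZ_comm z (i s) (hzt s) (φ t)).symm) (fun t => iZ_comm z y hzy (φ t))
  obtain ⟨T', _, _, σ', e, hcps⟩ := (hTWF E T Z p σ hp hT hσ).2 hemp
  let aEC : Algebra E C := ((algebraMap Z C).comp (algebraMap E Z)).toAlgebra'
    (fun c x => Algebra.commutes _ _)
  have : IsScalarTower E Z C := IsScalarTower.of_algebraMap_eq fun _ => rfl
  let cT : T →ₐ[E] C :=
    { facj j hj (i : T →+* Δ) hc1 with
      commutes' := fun a => by
        apply hj
        refine (facj_spec j hj (i : T →+* Δ) hc1 _).trans ?_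
        refine (i.commutes a).trans ?_
        rw [IsScalarTower.algebraMap_apply E Z C, hjZ]
        exact (iz.commutes a).symm }
  have hcT : ∀ t, j (cT t) = i t := fun t => facj_spec j hj (i : T →+* Δ) hc1 t
  let cc : Z ⊗[E] T →ₐ[Z] C := Algebra.TensorProduct.lift (Algebra.ofId Z C) cT
    (fun a b => Algebra.commutes a (cT b))
  have hcc : ∀ w t, cc (w ⊗ₜ t) = algebraMap Z C w * cT t := fun w t =>
    Algebra.TensorProduct.lift_tmul _ _ _ _ _
  let c : T' →ₐ[Z] C := cc.comp (e.symm : T' →ₐ[Z] Z ⊗[E] T)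
  have hce : ∀ x, c (e x) = cc x := fun x => by
    change cc (e.symm (e x)) = cc x
    rw [e.symm_apply_apply]
  have hcy0 : cy ≠ 0 := by
    rintro rfl
    rw [map_zero] at hcy
    exact hy hcy.symm
  have hcyt : ∀ t', cy * c t' = c (σ' t') * cy := by
    intro t'
    obtain ⟨x, rfl⟩ := e.surjective t'
    induction x using TensorProduct.induction_on with
    | zero => simp
    | add a b ha hb => rw [map_add, map_add, mul_add, ha, hb, map_add, map_add, add_mul]
    | tmul w t =>
      have h1 : σ' (e (w ⊗ₜ t)) = e (w ⊗ₜ σ t) := by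
        have h2 : ∀ s : T, (w ⊗ₜ s : Z ⊗[E] T) = w • (1 ⊗ₜ s) := fun s => by
          rw [TensorProduct.smul_tmul', smul_eq_mul, mul_one]
        rw [h2, h2, map_smul, map_smul, map_smul, hcps.cmp]
      rw [h1, hce, hce, hcc, hcc]
      apply hj
      rw [map_mul, map_mul, map_mul, map_mul, hcT, hcT, hcy, ← mul_assoc, hjZ]
      rw [show y * iz w = iz w * y from iZ_comm z y hzy w, mul_assoc, hyt, mul_assoc]
  have hcyp : cy ^ p = algebraMap Z C ζ := by
    apply hj
    rw [map_pow, hcy, hjZ, hiz]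
  have := hcps.fin
  have := hcps.gal
  obtain ⟨K, _, _, k, i', y', hki, hky, hCD, hCyc⟩ :=
    hCYG Z T' C p σ' c cy ζ hp hcps.deg hcps.ne hcy0 hcyt hcyp
  obtain ⟨Δ', _, _, hDA', -, ⟨f⟩⟩ := hSUB Z C K p hCor.1 hCD ⟨k⟩
  refine ⟨{ Z := Z, ζ := ζ, T' := T', σ' := σ', e := e, K := K, i' := i', y' := y',
            h := j.comp (k : K →+* C), Δ' := Δ', fin := hfin, z0 := ?_, rt := ?_, gen := ?_,
            cps := hcps, cd := hCD, cyc := hCyc, ha := ?_, hi := ?_, hy := ?_, emb := ?_,
            ez := ⟨iz⟩, da := hDA', dv := ?_, mi := ?_ }⟩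
  · intro h0
    apply hz0
    rw [← hiz, h0, map_zero]
  · change aeval (AdjoinRoot.root (minpoly E z)) (minpoly E z) = 0
    rw [AdjoinRoot.aeval_eq, AdjoinRoot.mk_self]
  · intro W _ _ w hw
    exact ⟨AdjoinRoot.liftAlgHom (minpoly E z) (Algebra.ofId E W) w hw,
      AdjoinRoot.liftAlgHom_root ..⟩
  · intro a
    change j (k (algebraMap Z K (algebraMap E Z a))) = _
    rw [k.commutes, hjZ]
    exact iz.commutes a
  · intro t
    change j (k (i' (e (1 ⊗ₜ t)))) = _
    rw [hki, hce, hcc, map_one, one_mul, hcT]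
  · change j (k y') = y
    rw [hky, hcy]
  · exact ⟨(j.comp (k : K →+* C)).comp (i' : T' →+* K)⟩
  · refine ⟨fun h => ?_, fun x hx => ?_⟩
    · have := congrArg f h
      rw [map_one, map_zero] at this
      exact one_ne_zero this
    · have h1 : f x ≠ 0 := fun h => hx (f.injective (by rw [h, map_zero]))
      have h2 : IsUnit (f x) := isUnit_iff_ne_zero.2 h1
      have h3 := h2.map (f.symm : C →ₐ[Z] K ⊗[Z] Δ')
      have h4 : (f.symm : C →ₐ[Z] K ⊗[Z] Δ') (f x) = x := f.symm_apply_apply x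
      rwa [h4] at h3
  · have h1 := (hMMI Z Z).1 (Z ⊗[E] Δ) C (K ⊗[Z] Δ') (Module.finrank E Z) 1 hCor.2
      ((hDVS Z).2.2.1 C (K ⊗[Z] Δ') ⟨f.symm⟩)
    rwa [mul_one] at h1

end

end Pool.Agent.Helper97.KZ
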