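import Pool.Agent.Helper91.KZ.StL

/-!
# MP_1d885e_al: (TWE) existence of twisted modules
-/

namespace Pool.Agent.Helper97.KZ

open Pool.Agent.Helper91.KZ Polynomial TensorProduct

universe u

noncomputable section

section mat

variable {Δ : Type u} [DivisionRing Δ] {r : ℕ}

/-- matrices act on columns -/
def mact (Δ : Type u) [DivisionRing Δ] (r : ℕ) :
    Matrix (Fin r) (Fin r) Δ →+* AddMonoid.End (Fin r → Δ) where
  toFun M :=
    { toFun := fun v => M.mulVec v
      map_zero' := Matrix.mulVec_zero M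
      map_add' := fun v w => Matrix.mulVec_add M v w }
  map_one' := AddMonoidHom.ext fun v => Matrix.one_mulVec v
  map_mul' M N := AddMonoidHom.ext fun v => (Matrix.mulVec_mulVec v M N).symm
  map_zero' := AddMonoidHom.ext fun v => Matrix.zero_mulVec v
  map_add' M N := AddMonoidHom.ext fun v => Matrix.add_mulVec M N v

@[simp] lemma mact_apply (M : Matrix (Fin r) (Fin r) Δ) (v : Fin r → Δ) :
    mact Δ r M v = M.mulVec v := rfl

/-- the matrix with a single column -/
def col1 (i : Fin r) (v : Fin r → Δ) : Matrix (Fin r) (Fin r) Δ :=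
  Matrix.of fun k j => if j = i then v k else 0

lemma col1_mulVec (i : Fin r) (v w : Fin r → Δ) :
    (col1 i v).mulVec w = fun k => v k * w i := by
  funext k
  simp [col1, Matrix.mulVec, dotProduct]

lemma mul_col1 (M : Matrix (Fin r) (Fin r) Δ) (i : Fin r) (v : Fin r → Δ) :
    M * col1 i v = col1 i (M.mulVec v) := by
  ext k j
  by_cases h : j = i
  · simp [col1, Matrix.mul_apply, Matrix.mulVec, dotProduct, h]
  · simp [col1, Matrix.mul_apply, h]

lemma col1_add (i : Fin r) (v w : Fin r → Δ) : col1 i (v + w) = col1 i v + col1 i w := by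
  ext k j
  by_cases h : j = i <;> simp [col1, h]

lemma sub_simple (W : AddSubgroup (Fin r → Δ))
    (hW : ∀ M : Matrix (Fin r) (Fin r) Δ, ∀ w ∈ W, M.mulVec w ∈ W) : W = ⊥ ∨ W = ⊤ := by
  by_cases h : W = ⊥
  · exact Or.inl h
  · right
    obtain ⟨w, hw, hw0⟩ := (AddSubgroup.bot_or_exists_ne_zero W).resolve_left h
    obtain ⟨i, hi⟩ := Function.ne_iff.1 hw0
    rw [Pi.zero_apply] at hi
    rw [eq_top_iff]
    intro v _
    have := hW (col1 i fun k => v k * (w i)⁻¹) w hw
    rw [col1_mulVec] at this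
    simpa [mul_assoc, inv_mul_cancel₀ hi] using this

lemma full_mat (hr : 0 < r) (f : (Fin r → Δ) →+ (Fin r → Δ))
    (hf : ∀ (M : Matrix (Fin r) (Fin r) Δ) (v : Fin r → Δ), f (M.mulVec v) = M.mulVec (f v)) :
    ∃ b : Δ, ∀ v, f v = fun k => v k * b := by
  let o : Fin r := ⟨0, hr⟩
  refine ⟨f (Pi.single o 1) o, fun v => ?_⟩
  have h1 : (col1 o v).mulVec (Pi.single o (1 : Δ)) = v := by
    rw [col1_mulVec]
    simp
  have h2 := hf (col1 o v) (Pi.single o 1)
  rw [h1, col1_mulVec] at h2
  exact h2

lemma twist_equiv (hr : 0 < r)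
    (β : Matrix (Fin r) (Fin r) Δ ≃+* Matrix (Fin r) (Fin r) Δ) :
    ∃ R : (Fin r → Δ) ≃+ (Fin r → Δ), ∀ (M : Matrix (Fin r) (Fin r) Δ) v,
      R (M.mulVec v) = (β M).mulVec (R v) := by
  let o : Fin r := ⟨0, hr⟩
  -- a vector not killed by the image of the matrix unit
  have hne : β (col1 o (Pi.single o (1 : Δ))) ≠ 0 := by
    intro h
    have h0 : col1 o (Pi.single o (1 : Δ)) = 0 := by
      rw [← map_zero β] at h
      exact β.injective h
    have := congrFun (congrFun h0 o) o
    simp [col1] at this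
  obtain ⟨w, hw⟩ : ∃ w : Fin r → Δ, (β (col1 o (Pi.single o (1 : Δ)))).mulVec w ≠ 0 := by
    by_contra hcon
    push Not at hcon
    apply hne
    ext i j
    have := congrFun (hcon (Pi.single j 1)) i
    simpa using this
  let R₀ : (Fin r → Δ) →+ (Fin r → Δ) :=
    { toFun := fun v => (β (col1 o v)).mulVec w
      map_zero' := by
        have : col1 o (0 : Fin r → Δ) = 0 := by
          ext i j
          simp [col1]
        simp [this]
      map_add' := fun v v' => by
        rw [col1_add, map_add, Matrix.add_mulVec] }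
  have hR : ∀ (M : Matrix (Fin r) (Fin r) Δ) v, R₀ (M.mulVec v) = (β M).mulVec (R₀ v) := by
    intro M v
    change (β (col1 o (M.mulVec v))).mulVec w = (β M).mulVec ((β (col1 o v)).mulVec w)
    rw [← mul_col1, map_mul, Matrix.mulVec_mulVec]
  have hR0 : R₀ (Pi.single o 1) ≠ 0 := hw
  have hinj : Function.Injective R₀ := by
    rw [injective_iff_map_eq_zero]
    have hk := sub_simple R₀.ker (fun M v hv => by
      rw [AddMonoidHom.mem_ker] at hv ⊢
      rw [hR, hv, Matrix.mulVec_zero])
    rcases hk with hk | hk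
    · intro v hv
      have : v ∈ R₀.ker := hv
      rw [hk] at this
      simpa using this
    · exfalso
      apply hR0
      have : (Pi.single o 1 : Fin r → Δ) ∈ R₀.ker := by
        rw [hk]
        trivial
      exact this
  have hsurj : Function.Surjective R₀ := by
    have hk := sub_simple R₀.range (fun M v hv => by
      obtain ⟨u, rfl⟩ := hv
      refine ⟨(β.symm M).mulVec u, ?_⟩
      rw [hR, β.apply_symm_apply])
    rcases hk with hk | hk
    · exfalso
      apply hR0
      have : R₀ (Pi.single o 1) ∈ R₀.range := ⟨_, rfl⟩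
      rw [hk] at this
      simpa using this
    · intro v
      have : v ∈ R₀.range := by
        rw [hk]
        trivial
      exact this
  exact ⟨AddEquiv.ofBijective R₀ ⟨hinj, hsurj⟩, fun M v => hR M v⟩

end mat

/-- (TWE) existence -/
theorem st_TWE : ST_TWE.{u} := by
  intro E N X Δ _ _ _ _ _ _ _ _ _ r hcor
  obtain ⟨hDA, hr, ⟨f⟩⟩ := hcor
  let V : Type u := Fin r → Δ
  let mX : Module X V := Module.compHom V
    (((mact Δ r).comp (f : N ⊗[E] X →+* Matrix (Fin r) (Fin r) Δ)).comp
      (Algebra.TensorProduct.includeRight : X →ₐ[E] N ⊗[E] X).toRingHom)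
  have hX : ∀ (x : X) (v : V), x • v = (f (1 ⊗ₜ x)).mulVec v := fun x v => rfl
  have hN : ∀ (n : N) (v : V), n • v = (f (n ⊗ₜ 1)).mulVec v := by
    intro n v
    have h1 : (n ⊗ₜ 1 : N ⊗[E] X) = algebraMap N (N ⊗[E] X) n := by
      simp [Algebra.TensorProduct.algebraMap_apply]
    rw [h1, AlgEquiv.commutes]
    funext i
    rw [Matrix.algebraMap_eq_diagonal, Matrix.mulVec_diagonal]
    change n • v i = algebraMap N Δ n * v i
    rw [Algebra.smul_def]
  have hNX : ∀ (n : N) (x : X) (v : V), n • x • v = (f (n ⊗ₜ x)).mulVec v := by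
    intro n x v
    rw [hX, hN, Matrix.mulVec_mulVec, ← map_mul]
    simp [Algebra.TensorProduct.tmul_mul_tmul]
  have hXN : ∀ (n : N) (x : X) (v : V), x • n • v = (f (n ⊗ₜ x)).mulVec v := by
    intro n x v
    rw [hX, hN, Matrix.mulVec_mulVec, ← map_mul]
    simp [Algebra.TensorProduct.tmul_mul_tmul]
  -- stable subgroups
  have hstab : ∀ W : AddSubgroup V, (∀ (n : N), ∀ w ∈ W, n • w ∈ W) →
      (∀ (x : X), ∀ w ∈ W, x • w ∈ W) → ∀ M : Matrix (Fin r) (Fin r) Δ, ∀ w ∈ W,
      M.mulVec w ∈ W := by
    intro W h1 h2 M w hw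
    obtain ⟨a, rfl⟩ := f.surjective M
    induction a using TensorProduct.induction_on with
    | zero => simp [W.zero_mem]
    | tmul n x =>
      rw [← hNX]
      exact h1 n _ (h2 x w hw)
    | add a b ha hb =>
      rw [map_add, Matrix.add_mulVec]
      exact W.add_mem ha hb
  -- commuting maps
  have hcomm : ∀ F : V →+ V, (∀ (n : N) (v : V), F (n • v) = n • F v) →
      (∀ (x : X) (v : V), F (x • v) = x • F v) → ∀ (M : Matrix (Fin r) (Fin r) Δ) (v : V),
      F (M.mulVec v) = M.mulVec (F v) := by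
    intro F h1 h2 M v
    obtain ⟨a, rfl⟩ := f.surjective M
    induction a using TensorProduct.induction_on with
    | zero => simp
    | tmul n x =>
      rw [← hNX, ← hNX, h1, h2]
    | add a b ha hb =>
      rw [map_add, Matrix.add_mulVec, Matrix.add_mulVec, map_add, ha, hb]
  have hfull : ∀ F : V →+ V, (∀ (n : N) (v : V), F (n • v) = n • F v) →
      (∀ (x : X) (v : V), F (x • v) = x • F v) → ∃ b : Δᵐᵒᵖ, ∀ v, F v = b • v := by
    intro F h1 h2
    obtain ⟨b, hb⟩ := full_mat hr F (hcomm F h1 h2)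
    exact ⟨MulOpposite.op b, fun v => by rw [hb v]; rfl⟩
  -- the semilinear maps
  have hRex : ∀ g : N ≃ₐ[E] N, ∃ R : V ≃+ V, (∀ (n : N) (v : V), R (n • v) = g n • R v) ∧
      ∀ (x : X) (v : V), R (x • v) = x • R v := by
    intro g
    let α : N ⊗[E] X ≃ₐ[E] N ⊗[E] X :=
      Algebra.TensorProduct.congr g (AlgEquiv.refl : X ≃ₐ[E] X)
    let β : Matrix (Fin r) (Fin r) Δ ≃+* Matrix (Fin r) (Fin r) Δ :=
      (f.symm.toRingEquiv.trans α.toRingEquiv).trans f.toRingEquiv
    have hβ : ∀ a : N ⊗[E] X, β (f a) = f (α a) := by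
      intro a
      change f (α (f.symm (f a))) = f (α a)
      rw [AlgEquiv.symm_apply_apply]
    obtain ⟨R, hR⟩ := twist_equiv hr β
    refine ⟨R, fun n v => ?_, fun x v => ?_⟩
    · rw [hN, hR, hβ, hN]
      simp [α]
    · rw [hX, hR, hβ, hX]
      simp [α]
  choose R hRN hRX using hRex
  have hUex : ∀ g h : N ≃ₐ[E] N, ∃ b : Δᵐᵒᵖ, ∀ v, R g (R h v) = b • R (g * h) v := by
    intro g h
    have hs1 : ∀ (n : N) (v : V), (R (g * h)).symm (n • v) =
        (g * h).symm n • (R (g * h)).symm v := by
      intro n v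
      apply (R (g * h)).injective
      rw [hRN, AddEquiv.apply_symm_apply, AddEquiv.apply_symm_apply, AlgEquiv.apply_symm_apply]
    have hs2 : ∀ (x : X) (v : V), (R (g * h)).symm (x • v) = x • (R (g * h)).symm v := by
      intro x v
      apply (R (g * h)).injective
      rw [hRX, AddEquiv.apply_symm_apply, AddEquiv.apply_symm_apply]
    obtain ⟨b, hb⟩ := hfull
      (((R g).toAddMonoidHom.comp (R h).toAddMonoidHom).comp (R (g * h)).symm.toAddMonoidHom)
      (fun n v => by
        change R g (R h ((R (g * h)).symm (n • v))) = n • R g (R h ((R (g * h)).symm v))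
        rw [hs1, hRN, hRN]
        congr 1
        change (g * h) ((g * h).symm n) = n
        exact AlgEquiv.apply_symm_apply _ _)
      (fun x v => by
        change R g (R h ((R (g * h)).symm (x • v))) = x • R g (R h ((R (g * h)).symm v))
        rw [hs2, hRX, hRX])
    refine ⟨b, fun v => ?_⟩
    have := hb (R (g * h) v)
    change R g (R h ((R (g * h)).symm (R (g * h) v))) = _ at this
    rw [AddEquiv.symm_apply_apply] at this
    exact this
  choose U hU using hUex
  have : Nonempty (Fin r) := ⟨⟨0, hr⟩⟩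
  exact ⟨{
    B := Δᵐᵒᵖ
    V := V
    modX := mX
    R := R
    U := U
    nt := inferInstanceAs (Nontrivial (Fin r → Δ))
    nx := fun n x v => by rw [hNX, hXN]
    nb := fun n b v => by
      funext i
      change n • (v i * b.unop) = (n • v i) * b.unop
      rw [smul_mul_assoc]
    xb := fun x b v => by
      rw [hX, hX]
      funext i
      change ∑ j, f (1 ⊗ₜ x) i j * (v j * b.unop) = (∑ j, f (1 ⊗ₜ x) i j * v j) * b.unop
      rw [Finset.sum_mul]
      simp only [mul_assoc]
    ee := fun e v => by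
      rw [hN, hX]
      congr 2
      rw [← Algebra.TensorProduct.algebraMap_apply', ← Algebra.TensorProduct.algebraMap_apply]
    bn := fun n v => by
      funext i
      change v i * algebraMap N Δ n = n • v i
      rw [Algebra.smul_def, Algebra.commutes]
    sm := fun W h1 h2 => sub_simple W (hstab W h1 h2)
    full := hfull
    rn := hRN
    rx := hRX
    co := hU }⟩

end

end Pool.Agent.Helper97.KZ
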